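import Pool.Agent.Helper78.ME.Goals

/-!
# Packet DIM: the parameters always fit
-/

namespace Pool.Agent.Helper94.ME

open Pool.Agent.Helper65.LinSpace Finset
open Pool.Agent.Helper78.ME

/-- The sum of a decreasing function with the values `0` and `1`. -/
theorem sum_anti (f : ℕ → ℕ) (h01 : ∀ j, f j ≤ 1) (ha : ∀ i j, i ≤ j → f j ≤ f i) (N : ℕ) :
    (∀ j < ∑ j ∈ range N, f (j + 1), f (j + 1) = 1) ∧
      (∑ j ∈ range N, f (j + 1) < N → f (∑ j ∈ range N, f (j + 1) + 1) = 0) ∧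
      ∑ j ∈ range N, f (j + 1) ≤ N := by
  induction N with
  | zero => simp
  | succ N ih =>
    obtain ⟨h1, h2, h3⟩ := ih
    rw [sum_range_succ]
    rcases Nat.lt_or_ge (∑ j ∈ range N, f (j + 1)) N with h | h
    · have h4 := h2 h
      have h5 := ha (∑ j ∈ range N, f (j + 1) + 1) (N + 1) (by omega)
      have h6 : f (N + 1) = 0 := by omega
      rw [h6, add_zero]
      exact ⟨h1, fun _ => h4, by omega⟩
    · have h4 : ∑ j ∈ range N, f (j + 1) = N := le_antisymm h3 h
      rw [h4] at h1 ⊢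
      have h5 := h01 (N + 1)
      rcases Nat.eq_zero_or_pos (f (N + 1)) with h6 | h6
      · rw [h6, add_zero]
        exact ⟨h1, fun _ => h6, by omega⟩
      · have h7 : f (N + 1) = 1 := by omega
        rw [h7]
        refine ⟨fun j hj => ?_, fun h => by omega, le_rfl⟩
        rcases Nat.lt_or_ge j N with h8 | h8
        · exact h1 j h8
        · have : j = N := by omega
          rw [this, h7]

theorem le01_le (x y : ℕ) : le01 x y ≤ 1 := by
  unfold le01
  split_ifs <;> omega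

theorem le01_anti {x x' : ℕ} (y : ℕ) (h : x ≤ x') : le01 x' y ≤ le01 x y := by
  unfold le01
  split_ifs <;> omega

theorem le01_eq_one {x y : ℕ} (h : le01 x y = 1) : x ≤ y := by
  unfold le01 at h
  by_contra hc
  rw [if_neg hc] at h
  omega

theorem cost_mono (n S D k : ℕ) {d d' : ℕ} (h : d ≤ d') : cost n S D k d ≤ cost n S D k d' := by
  unfold cost
  have h1 : d ^ (D - 1) ≤ d' ^ (D - 1) := Nat.pow_le_pow_left h _
  have h2 : (3 * d) ^ D ≤ (3 * d') ^ D := Nat.pow_le_pow_left (by omega) _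
  gcongr

theorem fits_le (n S D k d : ℕ) : fits n S D k d ≤ 1 := by
  unfold fits
  calc _ ≤ 1 * (1 * 1) :=
        Nat.mul_le_mul (le01_le _ _) (Nat.mul_le_mul (le01_le _ _) (le01_le _ _))
    _ = 1 := by norm_num

theorem fits_anti (n S D k : ℕ) {d d' : ℕ} (h : d ≤ d') :
    fits n S D k d' ≤ fits n S D k d := by
  unfold fits
  refine Nat.mul_le_mul (le01_anti _ (cost_mono n S D k h))
    (Nat.mul_le_mul (le01_anti _ ?_) le_rfl)
  exact Nat.mul_le_mul_left _ (Nat.mul_le_mul_left _ (Nat.pow_le_pow_left h _))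

theorem of_fits {n S D k d : ℕ} (h : fits n S D k d = 1) :
    cost n S D k d ≤ Pool.Agent.Helper78.Ep.mR n ∧
      (kap n * D + 1) * (k * d ^ (D - 1)) ≤ n + 8 ∧
      kap n * D + 1 ≤ Pool.Agent.Helper78.Ep.mR n + 1 := by
  unfold fits at h
  have h1 := Nat.eq_one_of_mul_eq_one_right h
  have h2 := Nat.eq_one_of_mul_eq_one_left h
  have h3 := Nat.eq_one_of_mul_eq_one_right h2
  have h4 := Nat.eq_one_of_mul_eq_one_left h2
  exact ⟨le01_eq_one h1, le01_eq_one h3, le01_eq_one h4⟩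

theorem mR_le (n : ℕ) : Pool.Agent.Helper78.Ep.mR n ≤ n + 8 := by
  unfold Pool.Agent.Helper78.Ep.mR
  have := Nat.div_le_self n (ll n)
  omega

theorem le_cost (n S D k d : ℕ) : d ≤ cost n S D k d := by
  rcases Nat.eq_zero_or_pos d with h | h
  · rw [h]
    exact Nat.zero_le _
  · unfold cost
    have h1 : 1 ≤ d ^ (D - 1) := Nat.one_le_pow _ _ h
    calc d = 1 * (1 * (1 * d)) := by ring
      _ ≤ d ^ (D - 1) * ((2 * (S + 1) + kap n * (D * (k + 1))) * (d ^ (D - 1) * d)) := by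
        refine Nat.mul_le_mul h1 (Nat.mul_le_mul (by omega) (Nat.mul_le_mul h1 le_rfl))
      _ ≤ _ := Nat.le_add_right _ _

theorem dim1 (n S D k : ℕ) (hd : 0 < dd n S D k) : fits n S D k (dd n S D k) = 1 ∧
    fits n S D k (dd n S D k + 1) = 0 ∧ dd n S D k ≤ n + 8 := by
  obtain ⟨h1, h2, h3⟩ := sum_anti (fits n S D k) (fits_le n S D k)
    (fun i j h => fits_anti n S D k h) (n + 9)
  change ∀ j < dd n S D k, fits n S D k (j + 1) = 1 at h1
  change dd n S D k < n + 9 → fits n S D k (dd n S D k + 1) = 0 at h2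
  have h4 : fits n S D k (dd n S D k) = 1 := by
    have := h1 (dd n S D k - 1) (by omega)
    rwa [Nat.sub_add_cancel hd] at this
  have h5 : dd n S D k ≤ n + 8 :=
    (le_cost n S D k _).trans ((of_fits h4).1.trans (mR_le n))
  exact ⟨h4, h2 (by omega), h5⟩

/-- All conditions. -/
theorem pars (n S D k : ℕ) : 0 < pd n S D k ∧ 0 < pk n S D k ∧
    cost n (pS n S D k) (pD n S D k) (pk n S D k) (pd n S D k) ≤ Pool.Agent.Helper78.Ep.mR n ∧
    (kap n * pD n S D k + 1) * (pk n S D k * pd n S D k ^ (pD n S D k - 1)) ≤ n + 8 ∧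
    kap n * pD n S D k + 1 ≤ Pool.Agent.Helper78.Ep.mR n + 1 := by
  unfold pS pD pk pd
  rcases Nat.eq_zero_or_pos (dd n (min S n) (min D (ll n)) (min (k - 1) n + 1)) with h | h
  · rw [h]
    simp only [ifz, if_true]
    refine ⟨by norm_num, by norm_num, ?_, ?_, ?_⟩
    · unfold cost Pool.Agent.Helper78.Ep.mR
      simp
    · simp
    · simp
  · obtain ⟨h1, -, -⟩ := dim1 _ _ _ _ h
    have h0 : dd n (min S n) (min D (ll n)) (min (k - 1) n + 1) ≠ 0 := by omega
    unfold ifz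
    simp only [if_neg h0]
    obtain ⟨h2, h3, h4⟩ := of_fits h1
    exact ⟨h, by omega, h2, h3, h4⟩

theorem DIM : DIM_stmt := by
  refine ⟨fun n S D k _ hd => dim1 n S D k hd, fun eA eN eW st x y S D k => ?_⟩
  obtain ⟨h1, h2, h3, h4, h5⟩ := pars (Nat.log 2 x) S D k
  obtain ⟨n, hn⟩ : ∃ n, n = Nat.log 2 x := ⟨_, rfl⟩
  have he : 0 < pd (Nat.log 2 x) S D k ^ (pD (Nat.log 2 x) S D k - 1) := Nat.pow_pos h1
  refine ⟨h1, he, h2, ?_⟩
  rw [← hn] at h1 h2 h3 h4 h5 he ⊢
  have hb1 : blocks n S D k ≤ Pool.Agent.Helper78.Ep.mR n /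
      (pd n S D k ^ (pD n S D k - 1) + 2) := min_le_left _ _
  have hY : 0 < kap n * pD n S D k + 1 := Nat.succ_pos _
  have hX : 0 < (kap n * pD n S D k + 1) * (pk n S D k * pd n S D k ^ (pD n S D k - 1)) :=
    Nat.mul_pos hY (Nat.mul_pos h2 he)
  have hB : 1 ≤ (n + 8) /
      ((kap n * pD n S D k + 1) * (pk n S D k * pd n S D k ^ (pD n S D k - 1))) := by
    rw [Nat.le_div_iff_mul_le hX, one_mul]
    exact h4
  have hC : 1 ≤ (Pool.Agent.Helper78.Ep.mR n + 1) / (kap n * pD n S D k + 1) := by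
    rw [Nat.le_div_iff_mul_le hY, one_mul]
    exact h5
  have hb2 : blocks n S D k + 1 ≤ min ((n + 8) /
      ((kap n * pD n S D k + 1) * (pk n S D k * pd n S D k ^ (pD n S D k - 1))))
      ((Pool.Agent.Helper78.Ep.mR n + 1) / (kap n * pD n S D k + 1)) := by
    have : blocks n S D k ≤ min ((n + 8) /
      ((kap n * pD n S D k + 1) * (pk n S D k * pd n S D k ^ (pD n S D k - 1))))
      ((Pool.Agent.Helper78.Ep.mR n + 1) / (kap n * pD n S D k + 1)) - 1 := min_le_right _ _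
    have h6 : 1 ≤ min ((n + 8) /
      ((kap n * pD n S D k + 1) * (pk n S D k * pd n S D k ^ (pD n S D k - 1))))
      ((Pool.Agent.Helper78.Ep.mR n + 1) / (kap n * pD n S D k + 1)) := le_min hB hC
    omega
  refine ⟨?_, ?_, ?_, ?_⟩
  · refine le_trans (le_of_eq ?_) h3
    rw [hn]
    rfl
  · have h6 := (Nat.le_div_iff_mul_le (by omega)).1 hb1
    refine le_trans (le_of_eq ?_) h6
    rw [hn]
    rfl
  · have h6 := (Nat.le_div_iff_mul_le hX).1 (hb2.trans (min_le_left _ _))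
    refine le_trans (le_of_eq ?_) h6
    rw [hn]
    rfl
  · have h6 := (Nat.le_div_iff_mul_le hY).1 (hb2.trans (min_le_right _ _))
    refine le_trans (le_of_eq ?_) h6
    rw [hn]
    rfl

end Pool.Agent.Helper94.ME
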