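import Pool.Agent.Helper78.ME.Goals
import Pool.Agent.Helper28.Ram.Par3

/-!
# Packet PAR1: parameters for large `n`, easy part
-/

namespace Pool.Agent.Helper94.ME

open Pool.Agent.Helper65.LinSpace Pool.Agent.Helper78.Mpc Pool.Agent.Helper28.Ram Finset Filter
open Pool.Agent.Helper78.ME

theorem lt_pow_kap (n : ℕ) : (n + 2) ^ 4 < 2 ^ (kap n - 1) := by
  have h1 : n < 2 ^ ll n := Nat.lt_pow_succ_log_self (by norm_num) n
  have h2 : n + 2 ≤ 2 ^ (ll n + 1) := by
    rw [pow_succ]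
    have : 1 ≤ 2 ^ ll n := Nat.one_le_two_pow
    omega
  calc (n + 2) ^ 4 ≤ (2 ^ (ll n + 1)) ^ 4 := Nat.pow_le_pow_left h2 4
    _ = 2 ^ ((ll n + 1) * 4) := (pow_mul _ _ _).symm
    _ < 2 ^ (kap n - 1) := Nat.pow_lt_pow_right (by norm_num) (by unfold kap; omega)

theorem ev_ll_ll (K : ℕ) : ∀ᶠ n : ℕ in atTop, K * ll (ll n) ≤ ll n := by
  have h : Tendsto ll atTop atTop := tendsto_atTop.2 fun k => ev_ll_ge k
  filter_upwards [h.eventually (ev_ll_cube K)] with n hn
  refine le_trans (Nat.mul_le_mul_left K ?_) hn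
  have h1 := ll_pos (ll n)
  calc ll (ll n) = ll (ll n) * 1 * 1 := by ring
    _ ≤ ll (ll n) * ll (ll n) * ll (ll n) :=
      Nat.mul_le_mul (Nat.mul_le_mul le_rfl h1) h1

theorem ev_ll_sq (K : ℕ) : ∀ᶠ n : ℕ in atTop, K * (ll n * ll n) ≤ n := by
  filter_upwards [ev_ll_cube K] with n hn
  refine le_trans (Nat.mul_le_mul_left K ?_) hn
  exact Nat.le_mul_of_pos_right _ (ll_pos n)

theorem cost_one (n s D k : ℕ) : cost n s D k 1 = (s + 1) * (2 * (k + 2) + (k + 1) * 3 ^ D) +
    kap n * ((k + 2) * ((k + 1) * D)) := by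
  unfold cost
  rw [one_pow]
  ring

theorem PAR1 : Pool.Agent.Helper78.ME.PAR1_stmt := by
  intro D k C hD hk
  obtain ⟨c, hc⟩ := exists_nat_gt (|C|)
  have hC0 := abs_nonneg C
  have hc0 : 0 < c := by
    have : (0 : ℝ) < c := lt_of_le_of_lt hC0 hc
    exact_mod_cast this
  obtain ⟨A1, hA1⟩ : ∃ A1, A1 = 2 * (k + 2) + (k + 1) * 3 ^ D := ⟨_, rfl⟩
  obtain ⟨A2, hA2⟩ : ∃ A2, A2 = (k + 2) * ((k + 1) * D) := ⟨_, rfl⟩
  filter_upwards [ev_ll_ge (8 * A1 * c + c), ev_ll_ll (8 * c),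
    ev_ll_sq (4 * (A1 + 10 * A2 + 11 * D * k + 10 * D + 1)), eventually_ge_atTop 4]
    with n hn1 hn2 hn3 hn4 r s hs h1 h2
  have hl : ((ll n : ℕ) : ℝ) = (Nat.log 2 n : ℝ) + 1 := by
    unfold ll
    push_cast
    ring
  rw [← hl] at h1 h2
  have hp := ll_pos n
  have hl1 : (1 : ℝ) ≤ ll n := by exact_mod_cast hp
  obtain ⟨l, hle⟩ : ∃ l, l = ll n := ⟨_, rfl⟩
  rw [← hle] at hn1 hn2 hn3 h1 h2 hp hl1
  -- the length of the words
  have hsl : s * (l * l) ≤ c * (n + 1) := by
    rw [le_div_iff₀ (by positivity)] at h2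
    have h3 : (s : ℝ) * ((l : ℝ) * l) ≤ (c : ℝ) * ((n : ℝ) + 1) := by
      calc (s : ℝ) * ((l : ℝ) * l) = s * (l : ℝ) ^ 2 := by ring
        _ ≤ C * ((n : ℝ) + 1) := h2
        _ ≤ c * ((n : ℝ) + 1) :=
          mul_le_mul_of_nonneg_right ((le_abs_self C).trans hc.le) (by positivity)
    exact_mod_cast h3
  have hsq : ∀ x, x ≤ A1 + 10 * A2 + 11 * D * k + 10 * D + 1 → 4 * (x * (l * l)) ≤ n := by
    intro x hx
    refine le_trans ?_ hn3
    calc 4 * (x * (l * l)) = 4 * x * (l * l) := by ring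
      _ ≤ _ := Nat.mul_le_mul_right _ (Nat.mul_le_mul_left 4 hx)
  have hll : l ≤ l * l := Nat.le_mul_of_pos_right _ hp
  have hNS : s < NS n := by
    unfold NS
    rw [← hle, Nat.lt_iff_add_one_le, Nat.le_div_iff_mul_le (ll_pos _),
      Nat.le_div_iff_mul_le hp]
    have h3 : 8 * (s * (ll l * l)) ≤ n + 1 := by
      have h4 : c * (8 * (s * (ll l * l))) ≤ c * (n + 1) := by
        calc c * (8 * (s * (ll l * l))) = s * ((8 * c * ll l) * l) := by ring
          _ ≤ s * (l * l) := Nat.mul_le_mul_left _ (Nat.mul_le_mul_right _ hn2)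
          _ ≤ c * (n + 1) := hsl
      exact Nat.le_of_mul_le_mul_left h4 hc0
    have h5 : ll l * l ≤ l * l := by
      apply Nat.mul_le_mul_right
      refine le_trans ?_ hn2
      exact Nat.le_mul_of_pos_left _ (by omega)
    have h6 := hsq 1 (by omega)
    have e : (s + 1) * ll l * l = s * (ll l * l) + ll l * l := by ring
    rw [e]
    omega
  have hsn : s ≤ n := by
    refine hNS.le.trans ?_
    unfold NS
    exact (Nat.div_le_self _ _).trans (Nat.div_le_self _ _)
  have hkap : kap n ≤ 10 * l := by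
    unfold kap
    omega
  refine ⟨hNS, hsn, ?_, ?_⟩
  · -- the side
    have hcost : cost n s D k 1 ≤ Pool.Agent.Helper78.Ep.mR n := by
      rw [cost_one, ← hA1, ← hA2]
      unfold Pool.Agent.Helper78.Ep.mR
      refine le_trans ?_ (Nat.le_add_right _ 8)
      rw [← hle, Nat.le_div_iff_mul_le hp]
      have h3 : 8 * (s * A1 * l) ≤ n + 1 := by
        have h4 : c * (8 * (s * A1 * l)) ≤ c * (n + 1) := by
          calc c * (8 * (s * A1 * l)) = s * ((8 * A1 * c) * l) := by ring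
            _ ≤ s * (l * l) := Nat.mul_le_mul_left _ (Nat.mul_le_mul_right _ (by omega))
            _ ≤ c * (n + 1) := hsl
        exact Nat.le_of_mul_le_mul_left h4 hc0
      have h5 : kap n * A2 * l ≤ (10 * A2) * (l * l) := by
        calc kap n * A2 * l ≤ (10 * l) * A2 * l :=
              Nat.mul_le_mul_right _ (Nat.mul_le_mul_right _ hkap)
          _ = _ := by ring
      have h6 : A1 * l ≤ A1 * (l * l) := Nat.mul_le_mul_left _ hll
      have h7 := hsq (A1 + 10 * A2) (by omega)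
      have e : ((s + 1) * A1 + kap n * A2) * l = s * A1 * l + A1 * l + kap n * A2 * l := by ring
      have e2 : (A1 + 10 * A2) * (l * l) = A1 * (l * l) + 10 * A2 * (l * l) := by ring
      rw [e]
      rw [e2] at h7
      omega
    have hkD : kap n * D * l ≤ n := by
      calc kap n * D * l ≤ (10 * l) * D * l :=
            Nat.mul_le_mul_right _ (Nat.mul_le_mul_right _ hkap)
        _ = (10 * D) * (l * l) := by ring
        _ ≤ n := by
          have := hsq (10 * D) (by omega)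
          omega
    have h2' : (kap n * D + 1) * (k * 1 ^ (D - 1)) ≤ n + 8 := by
      rw [one_pow, mul_one]
      have h3 : (kap n * D + 1) * k ≤ (11 * D * k) * (l * l) := by
        calc (kap n * D + 1) * k ≤ (10 * l * D + l * D) * k := by
              apply Nat.mul_le_mul_right
              refine Nat.add_le_add (Nat.mul_le_mul_right _ hkap) ?_
              exact Nat.mul_pos hp hD
          _ = (11 * D * k) * l := by ring
          _ ≤ _ := Nat.mul_le_mul_left _ hll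
      have h4 := hsq (11 * D * k) (by omega)
      omega
    have h3' : kap n * D + 1 ≤ Pool.Agent.Helper78.Ep.mR n + 1 := by
      unfold Pool.Agent.Helper78.Ep.mR
      have : kap n * D ≤ n / ll n := by
        rw [← hle, Nat.le_div_iff_mul_le hp]
        exact hkD
      omega
    have hfits : fits n s D k 1 = 1 := by
      unfold fits le01
      rw [if_pos hcost, if_pos h2', if_pos h3']
    unfold dd
    calc 0 < fits n s D k (0 + 1) := by rw [zero_add, hfits]; norm_num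
      _ ≤ _ := Finset.single_le_sum (f := fun j => fits n s D k (j + 1))
        (fun i _ => Nat.zero_le _) (mem_range.2 (by omega))
  · -- the running time
    refine lt_of_le_of_lt ?_ (lt_pow_kap n)
    have hs0 : (1 : ℝ) ≤ s := by exact_mod_cast hs
    have hD1 : (1 : ℝ) ≤ D := by exact_mod_cast hD
    have hden : (0 : ℝ) < 2 * (D : ℝ) - 1 := by linarith
    have a1 : (1 : ℝ) ≤ (s : ℝ) ^ ((D : ℝ) / (2 * (D : ℝ) - 1)) :=
      Real.one_le_rpow hs0 (by positivity)
    have a2 : (r : ℝ) ≤ (r : ℝ) * (s : ℝ) ^ ((D : ℝ) / (2 * (D : ℝ) - 1)) :=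
      le_mul_of_one_le_right (Nat.cast_nonneg _) a1
    have a3 : ((n : ℝ) + 1) ^ ((3 * (D : ℝ) - 1) / (2 * (D : ℝ) - 1)) ≤
        ((n : ℝ) + 1) ^ (2 : ℝ) := by
      refine Real.rpow_le_rpow_of_exponent_le (by linarith [Nat.cast_nonneg (α := ℝ) n]) ?_
      rw [div_le_iff₀ hden]
      linarith
    have a4 : ((n : ℝ) + 1) ^ (2 : ℝ) = ((n : ℝ) + 1) ^ 2 := by
      rw [show (2 : ℝ) = ((2 : ℕ) : ℝ) by norm_num, Real.rpow_natCast]
    have a5 : |C| ≤ (l : ℝ) ^ 5 := by
      have b1 : (c : ℝ) ≤ l := by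
        have : c ≤ l := by
          refine le_trans ?_ hn1
          omega
        exact_mod_cast this
      have b3 : (l : ℝ) ≤ (l : ℝ) ^ 5 := le_self_pow₀ hl1 (by norm_num)
      linarith
    have a6 : (r : ℝ) ≤ ((n : ℝ) + 1) ^ 2 := by
      have b1 : C * ((n : ℝ) + 1) ^ ((3 * (D : ℝ) - 1) / (2 * (D : ℝ) - 1)) / (l : ℝ) ^ 5 ≤
          ((n : ℝ) + 1) ^ 2 := by
        rw [div_le_iff₀ (by positivity)]
        calc C * ((n : ℝ) + 1) ^ ((3 * (D : ℝ) - 1) / (2 * (D : ℝ) - 1))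
            ≤ (l : ℝ) ^ 5 * ((n : ℝ) + 1) ^ (2 : ℝ) :=
              mul_le_mul ((le_abs_self C).trans a5) a3 (by positivity) (by positivity)
          _ = _ := by rw [a4]; ring
      exact a2.trans (h1.trans b1)
    have a7 : ((r : ℝ)) ≤ (((n + 1) ^ 2 : ℕ) : ℝ) := by
      push_cast
      exact a6
    have a8 : r ≤ (n + 1) ^ 2 := by exact_mod_cast a7
    refine a8.trans ?_
    calc (n + 1) ^ 2 ≤ (n + 2) ^ 2 := Nat.pow_le_pow_left (by omega) 2
      _ ≤ (n + 2) ^ 4 := Nat.pow_le_pow_right (by omega) (by norm_num)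

end Pool.Agent.Helper94.ME
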